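import Pool.Agent.helper62.DP7.Spec

/-!
# d7:IND: the induction
-/

set_option autoImplicit false

namespace Pool.Agent.helper62.DP7

open Finset

theorem IND (hCO1 : CO1_stmt) (hCO2 : CO2_stmt) (hCO3 : CO3_stmt) (hCO4 : CO4_stmt)
    (hCO5 : CO5_stmt) (hDIS : DIS_stmt) : IND_stmt := by
  intro V W _ G R L hL hG h3 hsp A
  induction A using Finset.strongInduction with
  | H A ih =>
    by_contra hn
    have sub : ∀ v ∈ A, ∀ S : Finset V, v ∈ S → Col G R L (A \ S) (A \ S) := by
      intro v hv S hvS
      apply ih
      exact (Finset.ssubset_iff_of_subset Finset.sdiff_subset).2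
        ⟨v, hv, fun h => (Finset.mem_sdiff.1 h).2 hvS⟩
    rcases Finset.eq_empty_or_nonempty A with hA | hA
    · apply hn
      have hne : ∀ v, (L v).Nonempty := fun v => Finset.card_pos.1 (by have := hL.big v; omega)
      refine ⟨fun v => (hne v).choose, fun v _ => (hne v).choose_spec, ?_⟩
      intro u hu
      rw [hA] at hu
      exact absurd hu (Finset.notMem_empty u)
    · have hle3 : ∀ x ∈ A, (nb G A x).card ≤ 3 := h3 A
      have hge2 : ∀ x ∈ A, 2 ≤ (nb G A x).card := by
        intro x hx
        by_contra h
        exact hn (hCO1 V W G R L hL A x hle3 hx (by omega)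
          (sub x hx {x} (Finset.mem_singleton_self x)))
      have hno : ∀ v ∈ A, (nb G A v).card = 2 → ∀ u ∈ nb G A v,
          ((nb G A u).card ≤ 2 ∨ ∃ v' ∈ nb G A u, v' ≠ v ∧ (nb G A v').card ≤ 2) → False := by
        intro v hv hv2 u hu h
        exact hn (hCO2 V W G R L hL A v u hle3 hv hv2 hu h
          (sub v hv {v} (Finset.mem_singleton_self v)))
      have hsym : ∀ x ∈ A, ∀ y ∈ nb G A x, x ∈ nb G A y := by
        intro x hx y hy
        exact mem_nb.2 ⟨hx, (mem_nb.1 hy).2.symm⟩
      have hRed : Red G A := by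
        refine ⟨hle3, hge2, ?_, ?_⟩
        · intro x hx y hy z hz hy2 hz2
          by_contra hne
          exact hno y (mem_nb.1 hy).1 hy2 x (hsym x hx y hy)
            (Or.inr ⟨z, hz, fun h => hne h.symm, by omega⟩)
        · intro x hx hx2 y hy
          have h4 := hle3 y (mem_nb.1 hy).1
          by_contra hne
          exact hno x hx hx2 y hy (Or.inl (by omega))
      have hFar : Far G A := by
        intro u hu u' hu' huu v hv v' hv' hv2 hv2'
        exact hn (hCO3 V W G R L hL hG A v v' u u' hRed (mem_nb.1 hv).1 (mem_nb.1 hv').1 hv2 hv2'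
          (hsym u hu v hv) (hsym u' hu' v' hv') huu
          (sub v (mem_nb.1 hv).1 {v, v'} (Finset.mem_insert_self _ _)))
      have h4 : ∀ x ∈ A, (nb G A x).card = 3 → ∃ y ∈ nb G A x, ¬ T8 G A y := by
        intro x hx hx3
        by_contra hcon
        have hall : ∀ y ∈ nb G A x, T8 G A y := by
          intro y hy
          by_contra h
          exact hcon ⟨y, hy, h⟩
        obtain ⟨a, b, c, hab, hac, hbc, habc⟩ := Finset.card_eq_three.1 hx3
        have ha : a ∈ nb G A x := by rw [habc]; simp
        have hb : b ∈ nb G A x := by rw [habc]; simp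
        have hc : c ∈ nb G A x := by rw [habc]; simp
        obtain ⟨va, hva, hva2⟩ := hall a ha
        obtain ⟨vb, hvb, hvb2⟩ := hall b hb
        obtain ⟨vc, hvc, hvc2⟩ := hall c hc
        refine hn (hCO4 V W G R L hL hG A x ![a, b, c] ![va, vb, vc] hRed hx ?_ ?_ ?_ ?_)
        · intro i j hij
          fin_cases i <;> fin_cases j <;> simp_all
        · exact habc
        · intro i
          fin_cases i
          · exact ⟨hva, hva2⟩
          · exact ⟨hvb, hvb2⟩
          · exact ⟨hvc, hvc2⟩
        · exact sub x hx _ (Finset.mem_insert_self _ _)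
      have h5 : ∀ v ∈ A, (nb G A v).card = 2 → ∀ u ∈ nb G A v, ∀ a ∈ nb G A u, ∀ b ∈ nb G A u,
          a ≠ b → a ≠ v → b ≠ v →
          (∃ p ∈ nb G A a, p ≠ u ∧ T8 G A p) → (∃ q ∈ nb G A b, q ≠ u ∧ T8 G A q) → False := by
        intro v hv hv2 u hu a ha b hb hab hav hbv hp hq
        obtain ⟨p, hp, hpu, s, hs, hs2⟩ := hp
        obtain ⟨q, hq, hqu, t, ht, ht2⟩ := hq
        have huA : u ∈ A := (mem_nb.1 hu).1
        have hnb : nb G A u = {v, a, b} := by
          symm
          apply Finset.eq_of_subset_of_card_le
          · intro y hy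
            rcases Finset.mem_insert.1 hy with h | h
            · rw [h]
              exact hsym v hv u hu
            · rcases Finset.mem_insert.1 h with h | h
              · rw [h]; exact ha
              · rw [Finset.mem_singleton.1 h]; exact hb
          · have hc : ({v, a, b} : Finset V).card = 3 :=
              Finset.card_eq_three.2 ⟨v, a, b, hav.symm, hbv.symm, hab, rfl⟩
            rw [hc]
            exact hle3 u huA
        exact hn (hCO5 V W G R L hL hG A v u a b p q s t hRed hFar hv hv2 hu hab hav.symm hbv.symm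
          hnb hp hpu hq hqu hs hs2 ht ht2 (sub v hv _ (Finset.mem_insert_self _ _)))
      have h6 := hDIS V G A hG hRed hFar h4 h5
      have h7 := hsp A hA
      omega

end Pool.Agent.helper62.DP7
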